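import Pool.Agent.Helper69.GU.Defs
import Pool.Agent.Helper50.GT.HAAR
import Pool.Agent.Helper50.GT.COPY
import Pool.Agent.Helper50.GT.FIN

/-! FINU: the final theorem, sharp form for every `m`. -/

set_option autoImplicit false

namespace Pool.Agent.Helper69.GU

open Polynomial
open Pool.Agent.Helper51.GT (Mat PMat fr Dat dg Zm Fil Cir flp Red gprod Zp Filp Circ tr4
  st_HAAR st_COPY fin_tree)

/-- Regular graphs. -/
theorem finu_reg (hG : ST_GRPU) (hF : ST_FLDU) (hN : ST_NUMU) (m r : ℕ)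
    (hm : 1 ≤ m) (hr : 1 ≤ r) :
    ∃ (V : Type) (_ : Finite V) (_ : Nonempty V) (G : SimpleGraph V) (k : ℕ),
      (2 ^ r) ^ 6 ≤ 4 * k ∧ Nat.card V ≤ 4 * (2 ^ r) ^ (2 * (4 * m + 2 - m / 4)) ∧
      (∀ v : V, (G.neighborSet v).ncard = k) ∧
      ∀ (u : V) (w : G.Walk u u), w.IsCycle → 2 * m + 2 ≤ w.length := by
  obtain ⟨K, hK, hfin, φ, ρ, hdat, hρ, hcard, hφ, hN1, hT⟩ := hF r hr
  obtain ⟨Q, hQ, hQf, t, hQc, hw⟩ := hG K φ ρ hdat hρ (m + 1) (by omega)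
  have hX := hN K φ ρ r hr hdat hρ hcard hφ
  have : Finite (XU φ ρ) := inferInstance
  obtain ⟨V, hV, hVn, G, hVc, hdeg, hcyc⟩ := st_HAAR Q (XU φ ρ) t m hm
    (fun a b j h1 h2 h3 => hw a b j h1 (by omega) h3)
  refine ⟨V, hV, hVn, G, Nat.card (XU φ ρ), hX, ?_, hdeg, ?_⟩
  · rw [hVc]
    rw [Nat.add_sub_cancel] at hQc
    have h1 : Nat.card {x : K // x * fr φ 4 x = 1} *
        Nat.card K ^ (m - m / 4) * Nat.card {x : K // tr4 φ x = 0} ^ (m / 4) ≤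
        (2 * (2 ^ r) ^ 4) * ((2 ^ r) ^ 8) ^ (m - m / 4) *
          ((2 ^ r) ^ 6) ^ (m / 4) := by
      rw [hcard]
      gcongr
    have h2 : (2 * (2 ^ r) ^ 4) * ((2 ^ r) ^ 8) ^ (m - m / 4) *
          ((2 ^ r) ^ 6) ^ (m / 4) = 2 * (2 ^ r) ^ (2 * (4 * m + 2 - m / 4)) := by
      have e1 : ((2 ^ r) ^ 8 : ℕ) ^ (m - m / 4) =
          (2 ^ r) ^ (8 * (m - m / 4)) := (pow_mul _ _ _).symm
      have e2 : ((2 ^ r) ^ 6 : ℕ) ^ (m / 4) = (2 ^ r) ^ (6 * (m / 4)) :=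
        (pow_mul _ _ _).symm
      rw [e1, e2, mul_assoc, mul_assoc, ← pow_add, ← pow_add]
      congr 2
      omega
    have h3 := hQc.trans h1
    rw [h2] at h3
    calc 2 * Nat.card Q ≤ 2 * (2 * (2 ^ r) ^ (2 * (4 * m + 2 - m / 4))) :=
          Nat.mul_le_mul_left _ h3
      _ = _ := by ring
  · intro u w hw'
    exact hcyc u w hw'

/-- FINU: the theorem. -/
theorem st_FINU (hG : ST_GRPU) (hF : ST_FLDU) (hN : ST_NUMU) : ST_FINU := by
  intro m hm n hn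
  set v := 4 * m + 2 - m / 4 with hv
  have hv6 : 6 ≤ v := by omega
  have hn0 : (0 : ℝ) < n := by exact_mod_cast (by omega : 0 < n)
  have hn2 : (2 : ℝ) ≤ n := by exact_mod_cast hn
  have hv0 : (0 : ℝ) < (v : ℝ) := by exact_mod_cast (by omega : 0 < v)
  have key : ∀ q : ℝ, 0 < q → (n : ℝ) ≤ 4 * (2 * q) ^ (2 * v) →
      (n : ℝ) ^ (3 / (v : ℝ)) ≤ 128 * q ^ 6 := by
    intro q hq h
    have h1 : (n : ℝ) ^ 3 ≤ (128 * q ^ 6) ^ v := by
      have h4 : (4 : ℝ) ^ 3 ≤ 2 ^ v := by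
        calc (4 : ℝ) ^ 3 = 2 ^ 6 := by norm_num
          _ ≤ 2 ^ v := pow_le_pow_right₀ (by norm_num) hv6
      calc (n : ℝ) ^ 3 ≤ (4 * (2 * q) ^ (2 * v)) ^ 3 := by gcongr
        _ = 4 ^ 3 * ((2 * q) ^ 6) ^ v := by
            rw [mul_pow, ← pow_mul, ← pow_mul]
            congr 2
            ring
        _ ≤ 2 ^ v * ((2 * q) ^ 6) ^ v := by gcongr
        _ = (128 * q ^ 6) ^ v := by
            rw [← mul_pow]
            congr 1
            ring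
    have h2 : (n : ℝ) ^ (3 / (v : ℝ)) = ((n : ℝ) ^ 3) ^ (1 / (v : ℝ)) := by
      rw [← Real.rpow_natCast, ← Real.rpow_mul hn0.le]
      congr 1
      push_cast
      ring
    rw [h2]
    calc ((n : ℝ) ^ 3) ^ (1 / (v : ℝ)) ≤ ((128 * q ^ 6) ^ v) ^ (1 / (v : ℝ)) := by
          apply Real.rpow_le_rpow (by positivity) h1 (by positivity)
      _ = 128 * q ^ 6 := by
          rw [← Real.rpow_natCast, ← Real.rpow_mul (by positivity), mul_one_div_cancel hv0.ne',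
            Real.rpow_one]
  have hsplit : (n : ℝ) ^ ((1 : ℝ) + 3 / (v : ℝ)) = n * (n : ℝ) ^ (3 / (v : ℝ)) := by
    rw [Real.rpow_add hn0, Real.rpow_one]
  rw [hsplit]
  by_cases hbig : 4 * 2 ^ (2 * v) ≤ n
  · have hex : ∃ r, n < 4 * (2 ^ (r + 1)) ^ (2 * v) := by
      refine ⟨n, ?_⟩
      have h1 : n < 2 ^ (n + 1) :=
        lt_trans (Nat.lt_two_pow_self) (Nat.pow_lt_pow_right (by norm_num) (by omega))
      have h2 : 2 ^ (n + 1) ≤ (2 ^ (n + 1)) ^ (2 * v) := Nat.le_self_pow (by omega) _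
      omega
    classical
    let r := Nat.find hex
    have hr1 : n < 4 * (2 ^ (r + 1)) ^ (2 * v) := Nat.find_spec hex
    have hr0 : 1 ≤ r := by
      by_contra h0
      have h00 : r = 0 := by omega
      rw [h00] at hr1
      simp only [zero_add, pow_one] at hr1
      omega
    have hr2 : 4 * (2 ^ r) ^ (2 * v) ≤ n := by
      have := Nat.find_min hex (m := r - 1) (by show r - 1 < r; omega)
      rw [not_lt, Nat.sub_add_cancel hr0] at this
      exact this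
    obtain ⟨V, hV, hVn, G, k, hk, hVc, hdeg, hcyc⟩ := finu_reg hG hF hN m r hm hr0
    obtain ⟨H, hH1, hH2⟩ := st_COPY V G (2 * m + 2) k n hdeg hcyc (hVc.trans hr2)
    refine ⟨H, hH1, ?_⟩
    have hq : (n : ℝ) ^ (3 / (v : ℝ)) ≤ 128 * (2 ^ r) ^ 6 := by
      apply key _ (by positivity)
      have : ((n : ℕ) : ℝ) ≤ ((4 * (2 ^ (r + 1)) ^ (2 * v) : ℕ) : ℝ) := by exact_mod_cast hr1.le
      push_cast at this
      refine this.trans (le_of_eq ?_)
      rw [pow_succ, mul_comm (2 ^ r : ℝ) 2]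
    have h1 : (n : ℝ) * k ≤ 4 * (H.edgeSet.ncard : ℝ) := by exact_mod_cast hH2
    have h2 : ((2 : ℝ) ^ r) ^ 6 ≤ 4 * k := by exact_mod_cast hk
    calc (n : ℝ) * (n : ℝ) ^ (3 / (v : ℝ)) ≤ n * (128 * (2 ^ r) ^ 6) := by gcongr
      _ ≤ n * (128 * (4 * k)) := by gcongr
      _ = 512 * (n * k) := by ring
      _ ≤ 512 * (4 * (H.edgeSet.ncard : ℝ)) := by gcongr
      _ = _ := by ring
  · obtain ⟨T, hT1, hT2⟩ := fin_tree n (by omega)
    refine ⟨T, fun u w hw => absurd hw (hT1 u w), ?_⟩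
    have h1 : (n : ℝ) ^ (3 / (v : ℝ)) ≤ 128 * 1 ^ 6 := by
      apply key 1 one_pos
      have : n ≤ 4 * 2 ^ (2 * v) := by omega
      rw [mul_one]
      exact_mod_cast this
    have h2 : (n : ℝ) = (T.edgeSet.ncard : ℝ) + 1 := by exact_mod_cast hT2
    calc (n : ℝ) * (n : ℝ) ^ (3 / (v : ℝ)) ≤ n * (128 * 1 ^ 6) := by gcongr
      _ ≤ 2048 * (T.edgeSet.ncard : ℝ) := by linarith

end Pool.Agent.Helper69.GU
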