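import Pool.Agent.Helper69.GU.Defs
import Pool.Agent.Helper92.GT.GRP

/-!
# GRPU: the finite group and the elements `t`
-/

set_option autoImplicit false

namespace Pool.Agent.Helper69.GU

open Polynomial
open Pool.Agent.Helper51.GT (Mat PMat fr Dat dg Zm Fil Cir flp Red gprod Zp Filp Circ tr4
  grp_Phi grp_Phi_coeff grp_Phi_smul grp_circ_mul grp_circ_inv grp_circ_th grp_gprod_map
  grp_filp_smul grp_gprod_shift)

variable {K : Type} [Field K]

/-- `P` as a power series -/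
noncomputable def grpu_P (ρ : K) : PowerSeries K := ((Pw ρ : K[X]) : PowerSeries K)

theorem grpu_unit {ρ : K} (hρ : ρ ≠ 0) : IsUnit (grpu_P ρ) := by
  rw [PowerSeries.isUnit_iff_constantCoeff]
  have h : PowerSeries.constantCoeff (grpu_P ρ) = ρ ^ 2 * ρ⁻¹ ^ 2 := by
    unfold grpu_P Pw
    rw [← PowerSeries.coeff_zero_eq_constantCoeff_apply, Polynomial.coeff_coe,
      Polynomial.mul_coeff_zero, Polynomial.coeff_add, Polynomial.coeff_add,
      Polynomial.coeff_X_zero, Polynomial.coeff_C_zero, Polynomial.coeff_C_zero, zero_add, zero_add]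
  rw [h, ← mul_pow, mul_inv_cancel₀ hρ, one_pow]
  exact isUnit_one

/-- the unit `P` -/
noncomputable def grpu_e {ρ : K} (hρ : ρ ≠ 0) : (PowerSeries K)ˣ := (grpu_unit hρ).unit

theorem grpu_e_val {ρ : K} (hρ : ρ ≠ 0) : (grpu_e hρ : PowerSeries K) = grpu_P ρ :=
  (grpu_unit hρ).unit_spec

/-- the unit given by `T` -/
noncomputable def grpu_u {φ : K ≃+* K} {ρ : K} (hρ : ρ ≠ 0) (p : K × K)
    (h1 : th φ ρ p * ad φ ρ p = (Pw ρ : K[X]) • (1 : Mat K))
    (h2 : ad φ ρ p * th φ ρ p = (Pw ρ : K[X]) • (1 : Mat K)) : (PMat K)ˣ where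
  val := grp_Phi K (th φ ρ p)
  inv := ((grpu_e hρ)⁻¹ : (PowerSeries K)ˣ).val • grp_Phi K (ad φ ρ p)
  val_inv := by
    rw [mul_smul_comm, ← map_mul, h1, grp_Phi_smul, map_one, smul_smul]
    show (((grpu_e hρ)⁻¹ : (PowerSeries K)ˣ).val * grpu_P ρ) • (1 : PMat K) = 1
    rw [← grpu_e_val hρ, Units.inv_mul, one_smul]
  inv_val := by
    rw [smul_mul_assoc, ← map_mul, h2, grp_Phi_smul, map_one, smul_smul]
    show (((grpu_e hρ)⁻¹ : (PowerSeries K)ˣ).val * grpu_P ρ) • (1 : PMat K) = 1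
    rw [← grpu_e_val hρ, Units.inv_mul, one_smul]

theorem grpu_det {φ : K ≃+* K} {ρ : K} {p : K × K} (h : (th φ ρ p).det = Pw ρ) :
    (grp_Phi K (th φ ρ p)).det = grpu_P ρ := by
  have h1 := RingHom.map_det (Polynomial.coeToPowerSeries.ringHom (R := K)) (th φ ρ p)
  rw [h] at h1
  show ((Polynomial.coeToPowerSeries.ringHom (R := K)).mapMatrix (th φ ρ p)).det = _
  rw [← h1]
  rfl

theorem grpu_val {φ : K ≃+* K} {ρ : K} (hρ : ρ ≠ 0) {A : Type} (f : A → K × K)
    (h1 : ∀ x, th φ ρ (f x) * ad φ ρ (f x) = (Pw ρ : K[X]) • (1 : Mat K))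
    (h2 : ∀ x, ad φ ρ (f x) * th φ ρ (f x) = (Pw ρ : K[X]) • (1 : Mat K)) (a b : ℕ → A) (j : ℕ) :
    (grpu_P ρ) ^ j • (gprod (fun x => grpu_u hρ (f x) (h1 x) (h2 x)) a b j).val =
      grp_Phi K (wd φ ρ (fun i => f (a i)) (fun i => f (b i)) j) := by
  induction j with
  | zero => simp [gprod, wd]
  | succ j ih =>
    simp only [gprod, wd]
    rw [Units.val_mul, Units.val_mul, map_mul, map_mul, ← ih]
    have h3 : ((grpu_u hρ (f (b j)) (h1 (b j)) (h2 (b j)))⁻¹ : (PMat K)ˣ).val =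
        ((grpu_e hρ)⁻¹ : (PowerSeries K)ˣ).val • grp_Phi K (ad φ ρ (f (b j))) := rfl
    have h4 : (grpu_u hρ (f (a j)) (h1 (a j)) (h2 (a j))).val = grp_Phi K (th φ ρ (f (a j))) := rfl
    rw [h3, h4, mul_smul_comm, mul_smul_comm, smul_smul, smul_mul_assoc, pow_succ, mul_assoc,
      ← grpu_e_val hρ, Units.mul_inv, mul_one]

/-- the constant coefficients of the first column of `T` -/
theorem grpu_cc (φ : K ≃+* K) (ρ : K) (p : K × K) (k : Fin 4) :
    (th φ ρ p k 0).coeff 0 = if k = 0 then p.1 else 0 := by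
  fin_cases k <;> simp [th, dg, Zm, Matrix.mul_apply, Matrix.diagonal, fr]

theorem grpu_Phi_cc (φ : K ≃+* K) (ρ : K) (p : K × K) (k : Fin 4) :
    PowerSeries.constantCoeff (grp_Phi K (th φ ρ p) k 0) = if k = 0 then p.1 else 0 := by
  rw [← PowerSeries.coeff_zero_eq_constantCoeff_apply, grp_Phi_coeff, grpu_cc]

theorem st_GRPU (hMAT : ST_MATU) (hREL : ST_RELU) (hIDX : ST_IDXU) : ST_GRPU := by
  intro K _ _ φ ρ hφ hρ d hd
  have hρ0 : ρ ≠ 0 := by
    intro h
    have h1 := hρ.mul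
    rw [h, zero_mul] at h1
    exact zero_ne_one h1
  obtain ⟨G, hG, hGd⟩ := hIDX K φ hφ
  obtain ⟨Nd, hNn, hN, hNi, hNb⟩ := hGd d hd
  have hfin : Finite (G ⧸ Nd) := Nat.finite_of_card_ne_zero hNi
  by_cases hne : Nonempty (XU φ ρ)
  · obtain ⟨x0⟩ := hne
    have hM := fun (b : XU φ ρ) => hMAT K φ ρ hφ hρ b.1 b.2
    have hM1 : ∀ b : XU φ ρ, th φ ρ b.1 * ad φ ρ b.1 = (Pw ρ : K[X]) • (1 : Mat K) := by
      intro b
      unfold ad
      rw [Matrix.mul_adjugate, (hM b).1]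
    have hM2 : ∀ b : XU φ ρ, ad φ ρ b.1 * th φ ρ b.1 = (Pw ρ : K[X]) • (1 : Mat K) := by
      intro b
      unfold ad
      rw [Matrix.adjugate_mul, (hM b).1]
    let u : XU φ ρ → (PMat K)ˣ := fun b => grpu_u hρ0 b.1 (hM1 b) (hM2 b)
    have hdet : ∀ b, (u b).val.det = grpu_P ρ := fun b => grpu_det (hM b).1
    have hcirc : ∀ b, Circ φ (u b).val := fun b => grp_circ_th (hM b).2.1
    have hcc : ∀ b : XU φ ρ, ∀ k : Fin 4, PowerSeries.constantCoeff ((u b).val k 0) =
        if k = 0 then b.1.1 else 0 := fun b k => grpu_Phi_cc φ ρ b.1 k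
    have hmem : ∀ b, u b * (u x0)⁻¹ ∈ G := by
      intro b
      have h1 : (u b * (u x0)⁻¹).val * (u x0).val = (u b).val := by
        rw [← Units.val_mul, inv_mul_cancel_right]
      rw [hG]
      refine ⟨?_, ?_, ?_⟩
      · rw [Units.val_mul]
        exact grp_circ_mul (hcirc b) (grp_circ_inv (hcirc x0))
      · have h2 := congrArg Matrix.det h1
        rw [Matrix.det_mul, hdet, hdet] at h2
        exact (grpu_unit hρ0).mul_right_cancel (h2.trans (one_mul _).symm)
      · have h2 := congrArg (fun M : PMat K => PowerSeries.constantCoeff (M 0 0)) h1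
        simp only [Matrix.mul_apply, Fin.sum_univ_four, map_add, map_mul, hcc] at h2
        simp only [if_true, Fin.reduceEq, if_false, mul_zero, add_zero] at h2
        set c := PowerSeries.constantCoeff ((u b * (u x0)⁻¹).val 0 0) with hc
        have h4 := x0.2.1
        have h5 := b.2.1
        have h6 : c * fr φ 4 c * (x0.1.1 * fr φ 4 x0.1.1) = b.1.1 * fr φ 4 b.1.1 := by
          rw [← h2, map_mul]
          ring
        rw [h4, h5, mul_one] at h6
        exact h6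
    let tg : XU φ ρ → G := fun b => ⟨u b * (u x0)⁻¹, hmem b⟩
    refine ⟨G ⧸ Nd, inferInstance, hfin, fun b => QuotientGroup.mk' Nd (tg b), hNb, ?_⟩
    intro a b j hj1 hj2 hred hone
    rw [grp_gprod_map (QuotientGroup.mk' Nd) tg a b j] at hone
    have h1 : gprod tg a b j ∈ Nd := by
      rw [QuotientGroup.mk'_apply, QuotientGroup.eq_one_iff] at hone
      exact hone
    rw [hN] at h1
    have h2 : (gprod tg a b j).val = gprod u a b j := by
      have h3 := grp_gprod_map G.subtype tg a b j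
      rw [← Subgroup.subtype_apply, ← h3]
      exact grp_gprod_shift u (u x0) a b j
    rw [h2] at h1
    have h4 := grp_filp_smul h1 ((grpu_P ρ) ^ j)
    rw [smul_sub, grpu_val hρ0 (fun x : XU φ ρ => x.1) hM1 hM2 a b j] at h4
    have h5 : (grpu_P ρ) ^ j • (1 : PMat K) =
        grp_Phi K (((Pw ρ) ^ j) • (1 : Mat K)) := by
      rw [grp_Phi_smul, map_one]
      congr 1
      unfold grpu_P
      rw [Polynomial.coe_pow]
    rw [h5, ← map_sub] at h4
    have h6 := hREL K φ ρ hφ hρ (fun i => (a i).1) (fun i => (b i).1) (fun i => (a i).2)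
      (fun i => (b i).2) d j hj1 hj2
      ⟨fun i hi h => hred.1 i hi (Subtype.ext h), fun i hi h => hred.2 i hi (Subtype.ext h)⟩
    apply h6
    intro r c s hs
    rw [← grp_Phi_coeff]
    exact h4 r c s hs
  · refine ⟨G ⧸ Nd, inferInstance, hfin, fun _ => 1, hNb, ?_⟩
    intro a
    exact absurd ⟨a 0⟩ hne

end Pool.Agent.Helper69.GU
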